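import Pool.Agent.H43.BZ.Stm2

set_option autoImplicit false

/-!
# Project BZ2 (helper43): `S_ODE`
-/

namespace Pool.Agent.H43.BZ

open Set MeasureTheory

theorem ODE : S_ODE := by
  intro T C a L hT hC ha hcont hL0 hL hCaT t ht
  obtain ⟨ht0, htT⟩ := ht
  obtain ⟨I, hI⟩ : ∃ I : ℝ → ℝ, ∀ u, I u = ∫ τ in (0:ℝ)..u, L τ := ⟨_, fun _ => rfl⟩
  have hI' : I = fun u => ∫ τ in (0:ℝ)..u, L τ := funext hI
  have hsub : Icc 0 t ⊆ Ico 0 T := fun x hx => ⟨hx.1, lt_of_le_of_lt hx.2 htT⟩
  have hint : IntegrableOn L (Icc 0 t) := (hcont.mono hsub).integrableOn_Icc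
  have hIc : ContinuousOn I (Icc 0 t) := by
    rw [hI']
    have := intervalIntegral.continuousOn_primitive_interval (μ := volume) (f := L) (a := 0) (b := t)
      (by rw [uIcc_of_le ht0]; exact hint)
    rwa [uIcc_of_le ht0] at this
  have hId : ∀ u ∈ Ioo 0 t, HasDerivAt I (L u) u := by
    intro u hu
    rw [hI']
    have huT : u < T := hu.2.trans htT
    apply intervalIntegral.integral_hasDerivAt_right
    · rw [intervalIntegrable_iff_integrableOn_Icc_of_le hu.1.le]
      exact hint.mono_set (Icc_subset_Icc_right hu.2.le)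
    · have h1 : ContinuousOn L (Ioo 0 T) := hcont.mono Ioo_subset_Ico_self
      exact h1.stronglyMeasurableAtFilter isOpen_Ioo u ⟨hu.1, huT⟩
    · exact (hcont.mono Ioo_subset_Ico_self).continuousAt (Ioo_mem_nhds hu.1 huT)
  obtain ⟨h, hh⟩ : ∃ h : ℝ → ℝ, h = fun u => Real.exp (-(C * I u)) + C * a * u := ⟨_, rfl⟩
  have hhc : ContinuousOn h (Icc 0 t) := by
    rw [hh]
    exact (Real.continuous_exp.comp_continuousOn (continuousOn_const.mul hIc).neg).add
      (continuousOn_const.mul continuousOn_id)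
  have hhd : ∀ u ∈ Ioo 0 t, HasDerivAt h (Real.exp (-(C * I u)) * (-(C * L u)) + C * a) u := by
    intro u hu
    rw [hh]
    have h1 := ((hId u hu).const_mul C).neg.exp
    have h2 : HasDerivAt (fun u : ℝ => C * a * u) (C * a) u := by
      have := (hasDerivAt_id u).const_mul (C * a)
      rwa [mul_one] at this
    exact h1.add h2
  have hmono : MonotoneOn h (Icc 0 t) := by
    apply monotoneOn_of_deriv_nonneg (convex_Icc 0 t) hhc
    · rw [interior_Icc]
      intro u hu
      exact (hhd u hu).differentiableAt.differentiableWithinAt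
    · rw [interior_Icc]
      intro u hu
      rw [(hhd u hu).deriv]
      have h1 := hL u (hsub ⟨hu.1.le, hu.2.le⟩)
      rw [← hI u] at h1
      have hE : 0 < Real.exp (-(C * I u)) := Real.exp_pos _
      have h2 : Real.exp (-(C * I u)) * L u ≤ a := by
        calc Real.exp (-(C * I u)) * L u ≤ Real.exp (-(C * I u)) * (a * Real.exp (C * I u)) :=
              mul_le_mul_of_nonneg_left h1 hE.le
          _ = a * (Real.exp (-(C * I u)) * Real.exp (C * I u)) := by ring
          _ = a := by rw [← Real.exp_add]; simp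
      have h3 : C * (Real.exp (-(C * I u)) * L u) ≤ C * a := mul_le_mul_of_nonneg_left h2 hC
      have h4 : Real.exp (-(C * I u)) * (-(C * L u)) = -(C * (Real.exp (-(C * I u)) * L u)) := by
        ring
      rw [h4]
      linarith
  have h01 : h 0 ≤ h t := hmono ⟨le_refl 0, ht0⟩ ⟨ht0, le_refl t⟩ ht0
  have hI0 : I 0 = 0 := by rw [hI]; simp
  have e0 : h 0 = 1 := by rw [hh]; simp [hI0]
  have e1 : h t = Real.exp (-(C * I t)) + C * a * t := by rw [hh]
  rw [e0, e1] at h01
  have h5 : C * a * t ≤ C * a * T := mul_le_mul_of_nonneg_left htT.le (mul_nonneg hC ha)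
  have h6 : 1 / 2 ≤ Real.exp (-(C * I t)) := by linarith
  rw [← hI t]
  have h7 : Real.exp (C * I t) * Real.exp (-(C * I t)) = 1 := by
    rw [← Real.exp_add]; simp
  have h8 : 0 < Real.exp (C * I t) := Real.exp_pos _
  have h9 : Real.exp (C * I t) * (1 / 2) ≤ Real.exp (C * I t) * Real.exp (-(C * I t)) :=
    mul_le_mul_of_nonneg_left h6 h8.le
  linarith

end Pool.Agent.H43.BZ
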